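import Mathlib

/-! The Louveau and Rosendal tree of an analytic quasi-order on the Cantor space. -/

set_option autoImplicit false

namespace Pool.Agent.ElemEmb

/-- Reversed initial segment of length `n`. -/
def pre {α : Type} (x : ℕ → α) : ℕ → List α
  | 0 => []
  | n + 1 => x n :: pre x n

theorem pre_length {α : Type} (x : ℕ → α) (n : ℕ) : (pre x n).length = n := by
  induction n with
  | zero => rfl
  | succ n ih => simp [pre, ih]

theorem pre_tail {α : Type} (x : ℕ → α) (n : ℕ) : (pre x (n + 1)).tail = pre x n := rfl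

theorem pre_inj {α : Type} {x y : ℕ → α} (h : ∀ n, pre x n = pre y n) : x = y := by
  funext n
  exact (List.cons.inj (h (n + 1))).1

theorem pre_eq_iff {α : Type} {x y : ℕ → α} {n : ℕ} :
    pre x n = pre y n ↔ ∀ i < n, x i = y i := by
  induction n with
  | zero => simp [pre]
  | succ n ih =>
    show x n :: pre x n = y n :: pre y n ↔ _
    rw [List.cons.injEq, ih]
    constructor
    · rintro ⟨h1, h2⟩ i hi
      rcases Nat.lt_succ_iff_lt_or_eq.1 hi with h | rfl
      · exact h2 i h
      · exact h1
    · intro h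
      exact ⟨h n (by omega), fun i hi => h i (by omega)⟩

variable (g : (ℕ → ℕ) → (ℕ → Bool) × (ℕ → Bool))

/-- Tree of the closed relation given by the graph of `g`. -/
def S0 (u v : List Bool) (t : List ℕ) : Prop :=
  ∃ z : ℕ → ℕ, u = pre (g z).1 t.length ∧ v = pre (g z).2 t.length ∧ t = pre z t.length

/-- Chains of length `m` bounded by `s`. -/
def Ch : ℕ → List Bool → List Bool → List ℕ → Prop
  | 0, u, v, _ => u = v
  | m + 1, u, v, s => ∃ (w : List Bool) (t : List ℕ),
      List.Forall₂ (· ≤ ·) t s ∧ S0 g u w t ∧ Ch m w v s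

/-- The tree of the quasi-order. -/
def SS (u v : List Bool) (s : List ℕ) : Prop :=
  ∃ m, (∀ d ∈ s, m ≤ d) ∧ Ch g m u v s

variable {g}

theorem S0_tail {u v : List Bool} {t : List ℕ} (h : S0 g u v t) : S0 g u.tail v.tail t.tail := by
  obtain ⟨z, h1, h2, h3⟩ := h
  cases t with
  | nil =>
    refine ⟨z, ?_, ?_, ?_⟩
    · rw [h1]
      rfl
    · rw [h2]
      rfl
    · rfl
  | cons k t =>
    refine ⟨z, ?_, ?_, ?_⟩
    · rw [h1]
      rfl
    · rw [h2]
      rfl
    · exact (List.cons.inj h3).2

theorem forall₂_tail {t s : List ℕ} (h : List.Forall₂ (· ≤ ·) t s) :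
    List.Forall₂ (· ≤ ·) t.tail s.tail := by
  cases h with
  | nil => exact List.Forall₂.nil
  | cons _ h => exact h

theorem forall₂_trans {t s r : List ℕ} (h : List.Forall₂ (· ≤ ·) t s)
    (h' : List.Forall₂ (· ≤ ·) s r) : List.Forall₂ (· ≤ ·) t r := by
  induction h generalizing r with
  | nil =>
    cases h'
    exact List.Forall₂.nil
  | cons h1 _ ih =>
    cases h' with
    | cons h2 h3 => exact List.Forall₂.cons (le_trans h1 h2) (ih h3)

theorem Ch_tail {m : ℕ} : ∀ {u v : List Bool} {s : List ℕ}, Ch g m u v s →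
    Ch g m u.tail v.tail s.tail := by
  induction m with
  | zero =>
    intro u v s h
    have h' : u = v := h
    rw [h']
    exact rfl
  | succ m ih =>
    rintro u v s ⟨w, t, h1, h2, h3⟩
    exact ⟨w.tail, t.tail, forall₂_tail h1, S0_tail h2, ih h3⟩

theorem Ch_mono {m : ℕ} : ∀ {u v : List Bool} {s s' : List ℕ}, List.Forall₂ (· ≤ ·) s s' →
    Ch g m u v s → Ch g m u v s' := by
  induction m with
  | zero =>
    intro u v s s' _ h
    exact h
  | succ m ih =>
    rintro u v s s' hs ⟨w, t, h1, h2, h3⟩
    exact ⟨w, t, forall₂_trans h1 hs, h2, ih hs h3⟩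

theorem Ch_append {m : ℕ} : ∀ {u v w : List Bool} {s t : List ℕ}, Ch g m u v s →
    List.Forall₂ (· ≤ ·) t s → S0 g v w t → Ch g (m + 1) u w s := by
  induction m with
  | zero =>
    intro u v w s t h h1 h2
    have h' : u = v := h
    subst h'
    exact ⟨w, t, h1, h2, rfl⟩
  | succ m ih =>
    rintro u v w s t ⟨w', t', h1, h2, h3⟩ h4 h5
    exact ⟨w', t', h1, h2, ih h3 h4 h5⟩

theorem isOpen_pre_eq {α : Type} [TopologicalSpace α] [DiscreteTopology α] (n : ℕ) :
    ∀ u : List α, IsOpen {x : ℕ → α | pre x n = u} := by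
  induction n with
  | zero =>
    intro u
    by_cases h : ([] : List α) = u
    · simp [pre, h]
    · simp [pre, h]
  | succ n ih =>
    intro u
    cases u with
    | nil => simp [pre]
    | cons b u =>
      have : {x : ℕ → α | pre x (n + 1) = b :: u} = (fun x : ℕ → α => x n) ⁻¹' {b} ∩
          {x | pre x n = u} := by
        ext x
        simp [pre]
      rw [this]
      exact ((isOpen_discrete _).preimage (continuous_apply n)).inter (ih u)

theorem isOpen_pre {α β : Type} [TopologicalSpace α] [DiscreteTopology α]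
    [TopologicalSpace β] [DiscreteTopology β] (n : ℕ) (P : List α → List β → Prop) :
    IsOpen {p : (ℕ → α) × (ℕ → β) | P (pre p.1 n) (pre p.2 n)} := by
  have : {p : (ℕ → α) × (ℕ → β) | P (pre p.1 n) (pre p.2 n)} =
      ⋃ (u : List α) (v : List β) (_ : P u v), {x | pre x n = u} ×ˢ {y | pre y n = v} := by
    ext ⟨x, y⟩
    simp
  rw [this]
  exact isOpen_iUnion fun u => isOpen_iUnion fun v => isOpen_iUnion fun _ =>
    (isOpen_pre_eq n u).prod (isOpen_pre_eq n v)

theorem isClosed_pre {α β : Type} [TopologicalSpace α] [DiscreteTopology α]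
    [TopologicalSpace β] [DiscreteTopology β] (n : ℕ) (P : List α → List β → Prop) :
    IsClosed {p : (ℕ → α) × (ℕ → β) | P (pre p.1 n) (pre p.2 n)} := by
  rw [← isOpen_compl_iff]
  exact isOpen_pre n fun u v => ¬ P u v

theorem forall₂_pre {z z' : ℕ → ℕ} {n : ℕ} (h : ∀ i < n, z i ≤ z' i) :
    List.Forall₂ (· ≤ ·) (pre z n) (pre z' n) := by
  induction n with
  | zero => exact List.Forall₂.nil
  | succ n ih => exact List.Forall₂.cons (h n (by omega)) (ih fun i hi => h i (by omega))

theorem le_of_forall₂_pre {z z' : ℕ → ℕ} {n : ℕ}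
    (h : List.Forall₂ (· ≤ ·) (pre z n) (pre z' n)) : ∀ i < n, z i ≤ z' i := by
  induction n with
  | zero =>
    intro i hi
    omega
  | succ n ih =>
    intro i hi
    have h' : List.Forall₂ (· ≤ ·) (z n :: pre z n) (z' n :: pre z' n) := h
    rw [List.forall₂_cons] at h'
    rcases Nat.lt_succ_iff_lt_or_eq.1 hi with hi' | rfl
    · exact ih h'.2 i hi'
    · exact h'.1

/-- The graph of a continuous function is closed. -/
theorem eq_of_S0 (hg : Continuous g) {x y : ℕ → Bool} {t : ℕ → ℕ}
    (h : ∀ n, S0 g (pre x n) (pre y n) (pre t n)) : g t = (x, y) := by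
  choose z hz using h
  have hz1 : ∀ n, ∀ i < n, t i = z n i := by
    intro n
    have := (hz n).2.2
    rw [pre_length] at this
    exact pre_eq_iff.1 this
  have hx : ∀ n, ∀ i < n, x i = (g (z n)).1 i := by
    intro n
    have := (hz n).1
    rw [pre_length] at this
    exact pre_eq_iff.1 this
  have hy : ∀ n, ∀ i < n, y i = (g (z n)).2 i := by
    intro n
    have := (hz n).2.1
    rw [pre_length] at this
    exact pre_eq_iff.1 this
  have htz : Filter.Tendsto z Filter.atTop (nhds t) := by
    rw [tendsto_pi_nhds]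
    intro i
    refine tendsto_const_nhds.congr' ?_
    filter_upwards [Filter.eventually_gt_atTop i] with n hn
    exact hz1 n i hn
  have h1 : Filter.Tendsto (fun n => g (z n)) Filter.atTop (nhds (g t)) :=
    (hg.tendsto t).comp htz
  have h2 : Filter.Tendsto (fun n => g (z n)) Filter.atTop (nhds (x, y)) := by
    have h3 : Filter.Tendsto (fun n => (g (z n)).1) Filter.atTop (nhds x) := by
      rw [tendsto_pi_nhds]
      intro i
      refine tendsto_const_nhds.congr' ?_
      filter_upwards [Filter.eventually_gt_atTop i] with n hn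
      exact hx n i hn
    have h4 : Filter.Tendsto (fun n => (g (z n)).2) Filter.atTop (nhds y) := by
      rw [tendsto_pi_nhds]
      intro i
      refine tendsto_const_nhds.congr' ?_
      filter_upwards [Filter.eventually_gt_atTop i] with n hn
      exact hy n i hn
    exact h3.prodMk_nhds h4
  exact tendsto_nhds_unique h1 h2

/-- König's lemma for chains. -/
theorem chain_of_Ch (hg : Continuous g) {y : ℕ → Bool} {z : ℕ → ℕ} (m : ℕ) :
    ∀ {x : ℕ → Bool}, (∀ n, Ch g m (pre x n) (pre y n) (pre z n)) →
      Relation.ReflTransGen (fun a b => ∃ t, g t = (a, b)) x y := by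
  induction m with
  | zero =>
    intro x h
    rw [pre_inj (x := x) (y := y) h]
  | succ m ih =>
    intro x h
    let K : ℕ → Set ((ℕ → Bool) × (ℕ → ℕ)) := fun n =>
      (Set.univ ×ˢ {t : ℕ → ℕ | ∀ i, t i ≤ z i}) ∩
        {p | S0 g (pre x n) (pre p.1 n) (pre p.2 n) ∧ Ch g m (pre p.1 n) (pre y n) (pre z n)}
    have hcomp : IsCompact ((Set.univ : Set (ℕ → Bool)) ×ˢ {t : ℕ → ℕ | ∀ i, t i ≤ z i}) := by
      refine isCompact_univ.prod ?_
      have : {t : ℕ → ℕ | ∀ i, t i ≤ z i} = Set.pi Set.univ fun i => Set.Iic (z i) := by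
        ext t
        simp [Pi.le_def]
      rw [this]
      exact isCompact_univ_pi fun i => (Set.finite_Iic (z i)).isCompact
    have hcl : ∀ n, IsClosed (K n) := by
      intro n
      exact hcomp.isClosed.inter (isClosed_pre n fun u v =>
        S0 g (pre x n) u v ∧ Ch g m u (pre y n) (pre z n))
    have hne : (⋂ n, K n).Nonempty := by
      refine IsCompact.nonempty_iInter_of_sequence_nonempty_isCompact_isClosed K ?_ ?_ ?_ hcl
      · rintro n ⟨c, t⟩ ⟨h1, h2, h3⟩
        exact ⟨h1, S0_tail h2, Ch_tail h3⟩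
      · intro n
        obtain ⟨w, t, h1, h2, h3⟩ := h n
        obtain ⟨z', e1, e2, e3⟩ := h2
        have hl : t.length = n := by
          rw [h1.length_eq, pre_length]
        rw [hl] at e1 e2 e3
        have hle : ∀ i < n, z' i ≤ z i := by
          rw [e3] at h1
          exact le_of_forall₂_pre h1
        have e4 : pre (fun i => min (z' i) (z i)) n = pre z' n := by
          rw [pre_eq_iff]
          intro i hi
          exact min_eq_left (hle i hi)
        refine ⟨((g z').2, fun i => min (z' i) (z i)), ⟨trivial, fun i => min_le_right _ _⟩, ?_, ?_⟩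
        · show S0 g (pre x n) (pre (g z').2 n) (pre (fun i => min (z' i) (z i)) n)
          rw [e4]
          exact ⟨z', by rw [pre_length]; exact e1, by rw [pre_length], by rw [pre_length]⟩
        · show Ch g m (pre (g z').2 n) (pre y n) (pre z n)
          rw [← e2]
          exact h3
      · exact hcomp.of_isClosed_subset (hcl 0) Set.inter_subset_left
    obtain ⟨⟨c, t⟩, hct⟩ := hne
    rw [Set.mem_iInter] at hct
    have e : g t = (x, c) := eq_of_S0 hg fun n => (hct n).2.1
    exact Relation.ReflTransGen.head ⟨t, e⟩ (ih fun n => (hct n).2.2)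

/-- If the tree has a branch then there is a chain. -/
theorem chain_of_SS (hg : Continuous g) {x y : ℕ → Bool} {z : ℕ → ℕ}
    (h : ∀ n, SS g (pre x n) (pre y n) (pre z n)) :
    Relation.ReflTransGen (fun a b => ∃ t, g t = (a, b)) x y := by
  choose m hm1 hm2 using h
  have hb : ∀ n, m (n + 1) ≤ z 0 := by
    intro n
    refine hm1 (n + 1) _ ?_
    induction n with
    | zero => simp [pre]
    | succ n ih => exact List.mem_cons_of_mem _ ih
  -- some value is taken infinitely often
  obtain ⟨M, hM⟩ : ∃ M, ∀ n, ∃ k, n ≤ k ∧ m k = M := by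
    by_contra hcon
    push Not at hcon
    choose b hbb using hcon
    let B := (Finset.range (z 0 + 1)).sup b
    have hlt : m (B + 1) ∈ Finset.range (z 0 + 1) := by
      rw [Finset.mem_range]
      have := hb B
      omega
    exact hbb (m (B + 1)) (B + 1) ((Finset.le_sup (f := b) hlt).trans (Nat.le_succ B)) rfl
  refine chain_of_Ch (z := z) hg M fun n => ?_
  obtain ⟨k, hk, e⟩ := hM n
  have h1 := hm2 k
  rw [e] at h1
  clear hm1 hm2 hb e
  induction k, hk using Nat.le_induction with
  | base => exact h1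
  | succ k hk ih => exact ih (Ch_tail h1)

end Pool.Agent.ElemEmb
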