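import Mathlib

/-! Countable relational structures on the natural numbers coded as in the problem, and a
back and forth criterion for elementary embeddings. -/

set_option autoImplicit false

open FirstOrder

namespace Pool.Agent.ElemEmb

/-- The countable relational language with one relation symbol of arity `a i` for every `i`. -/
abbrev langOf (a : ℕ → ℕ) : FirstOrder.Language.{0, 0} :=
  FirstOrder.Language.mk (fun _ => PEmpty.{1}) (fun n => {i : ℕ // a i = n})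

/-- The space of structures on the natural numbers. -/
abbrev Code (a : ℕ → ℕ) : Type := ∀ i : ℕ, (Fin (a i) → ℕ) → Bool

/-- The structure coded by `u`. -/
abbrev strOf (a : ℕ → ℕ) (u : Code a) : (langOf a).Structure ℕ :=
  @FirstOrder.Language.Structure.mk (langOf a) ℕ
    (fun f _ => PEmpty.elim f)
    (fun r xs => u (Subtype.val r) (xs ∘ Fin.cast (Subtype.property r)) = true)

/-- Elementary embeddability of coded structures. -/
def EE (a : ℕ → ℕ) (u v : Code a) : Prop :=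
  Nonempty (@FirstOrder.Language.ElementaryEmbedding (langOf a) ℕ ℕ (strOf a u) (strOf a v))

/-- `P` is a system of finite partial maps with the back and forth property respecting the
relations with index below `N`. -/
structure BF (a : ℕ → ℕ) (u v : Code a) (N : ℕ) (P : Set (Set (ℕ × ℕ))) : Prop where
  rel : ∀ Q ∈ P, ∀ i < N, ∀ x y : Fin (a i) → ℕ, (∀ j, (x j, y j) ∈ Q) → u i x = v i y
  inj : ∀ Q ∈ P, ∀ p ∈ Q, ∀ q ∈ Q, (p.1 = q.1 ↔ p.2 = q.2)
  forth : ∀ Q ∈ P, ∀ x : ℕ, ∃ Q' ∈ P, Q ⊆ Q' ∧ ∃ y, (x, y) ∈ Q'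
  back : ∀ Q ∈ P, ∀ y : ℕ, ∃ Q' ∈ P, Q ⊆ Q' ∧ ∃ x, (x, y) ∈ Q'

/-- Value of a term. -/
def tv {a : ℕ → ℕ} (u : Code a) {β : Type} (w : β → ℕ) (t : (langOf a).Term β) : ℕ :=
  @FirstOrder.Language.Term.realize (langOf a) ℕ (strOf a u) β w t

theorem tv_mem {a : ℕ → ℕ} {u v : Code a} {β : Type} {Q : Set (ℕ × ℕ)} {w w' : β → ℕ}
    (h : ∀ i, (w i, w' i) ∈ Q) (t : (langOf a).Term β) : (tv u w t, tv v w' t) ∈ Q := by
  cases t with
  | var b => exact h b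
  | func f _ => exact PEmpty.elim f

theorem sum_mem {α β : Type} {Q : Set (ℕ × ℕ)} {w w' : α → ℕ} {xs xs' : β → ℕ}
    (h : ∀ i, (w i, w' i) ∈ Q) (h' : ∀ i, (xs i, xs' i) ∈ Q) (i : α ⊕ β) :
    (Sum.elim w xs i, Sum.elim w' xs' i) ∈ Q := by
  rcases i with i | i
  · exact h i
  · exact h' i

/-- Truth of a formula. -/
def RZ {a : ℕ → ℕ} (u : Code a) {α : Type} {n : ℕ} (φ : (langOf a).BoundedFormula α n)
    (w : α → ℕ) (xs : Fin n → ℕ) : Prop :=
  @FirstOrder.Language.BoundedFormula.Realize (langOf a) ℕ (strOf a u) α n φ w xs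

theorem RZ_iff {a : ℕ → ℕ} {u v : Code a} {α : Type} {n : ℕ}
    (φ : (langOf a).BoundedFormula α n) :
    ∃ N₀ : ℕ, ∀ N, N₀ ≤ N → ∀ P, BF a u v N P → ∀ Q ∈ P,
      ∀ (w w' : α → ℕ) (xs xs' : Fin n → ℕ),
        (∀ i, (w i, w' i) ∈ Q) → (∀ i, (xs i, xs' i) ∈ Q) →
        (RZ u φ w xs ↔ RZ v φ w' xs') := by
  induction φ with
  | falsum => exact ⟨0, fun _ _ _ _ _ _ _ _ _ _ _ _ => Iff.rfl⟩
  | @equal n t₁ t₂ =>
    refine ⟨0, fun N _ P hP Q hQ w w' xs xs' hw hx => ?_⟩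
    exact hP.inj Q hQ _ (tv_mem (u := u) (v := v) (sum_mem hw hx) t₁) _
      (tv_mem (u := u) (v := v) (sum_mem hw hx) t₂)
  | @rel n l R ts =>
    obtain ⟨i, hi⟩ := R
    subst hi
    refine ⟨i + 1, fun N hN P hP Q hQ w w' xs xs' hw hx => ?_⟩
    have h := hP.rel Q hQ i (by omega) (fun j => tv u (Sum.elim w xs) (ts j))
      (fun j => tv v (Sum.elim w' xs') (ts j))
      (fun j => tv_mem (u := u) (v := v) (sum_mem hw hx) (ts j))
    show (u i (fun j => tv u (Sum.elim w xs) (ts j)) = true) ↔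
      (v i (fun j => tv v (Sum.elim w' xs') (ts j)) = true)
    rw [h]
  | imp φ ψ ih₁ ih₂ =>
    obtain ⟨N₁, h₁⟩ := ih₁
    obtain ⟨N₂, h₂⟩ := ih₂
    refine ⟨max N₁ N₂, fun N hN P hP Q hQ w w' xs xs' hw hx => ?_⟩
    have e₁ := h₁ N (le_trans (le_max_left _ _) hN) P hP Q hQ w w' xs xs' hw hx
    have e₂ := h₂ N (le_trans (le_max_right _ _) hN) P hP Q hQ w w' xs xs' hw hx
    show (RZ u φ w xs → RZ u ψ w xs) ↔ (RZ v φ w' xs' → RZ v ψ w' xs')
    rw [e₁, e₂]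
  | @all n φ ih =>
    obtain ⟨N₁, h₁⟩ := ih
    refine ⟨N₁, fun N hN P hP Q hQ w w' xs xs' hw hx => ?_⟩
    have snoc_mem : ∀ (Q' : Set (ℕ × ℕ)) (x y : ℕ), Q ⊆ Q' → (x, y) ∈ Q' →
        ∀ i : Fin (n + 1), ((Fin.snoc xs x : Fin (n + 1) → ℕ) i,
          (Fin.snoc xs' y : Fin (n + 1) → ℕ) i) ∈ Q' := by
      intro Q' x y hsub hxy i
      refine Fin.lastCases ?_ (fun i => ?_) i
      · simpa using hxy
      · simpa using hsub (hx i)
    show (∀ x : ℕ, RZ u φ w (Fin.snoc xs x)) ↔ (∀ y : ℕ, RZ v φ w' (Fin.snoc xs' y))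
    constructor
    · intro H y
      obtain ⟨Q', hQ', hsub, x, hxy⟩ := hP.back Q hQ y
      exact (h₁ N hN P hP Q' hQ' w w' (Fin.snoc xs x) (Fin.snoc xs' y)
        (fun i => hsub (hw i)) (snoc_mem Q' x y hsub hxy)).1 (H x)
    · intro H x
      obtain ⟨Q', hQ', hsub, y, hxy⟩ := hP.forth Q hQ x
      exact (h₁ N hN P hP Q' hQ' w w' (Fin.snoc xs x) (Fin.snoc xs' y)
        (fun i => hsub (hw i)) (snoc_mem Q' x y hsub hxy)).2 (H y)

/-- A map is elementary as soon as all its finite restrictions lie in back and forth systems for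
all finite sublanguages. -/
theorem EE_of_BF {a : ℕ → ℕ} {u v : Code a} (h : ℕ → ℕ)
    (H : ∀ N : ℕ, ∀ n : ℕ, ∀ x : Fin n → ℕ, ∃ P, BF a u v N P ∧ ∃ Q ∈ P, ∀ i, (x i, h (x i)) ∈ Q) :
    EE a u v := by
  refine ⟨@FirstOrder.Language.ElementaryEmbedding.mk (langOf a) ℕ ℕ (strOf a u) (strOf a v) h ?_⟩
  intro n φ x
  obtain ⟨N₀, h₀⟩ := RZ_iff (u := u) (v := v) φ
  obtain ⟨P, hP, Q, hQ, hx⟩ := H N₀ n x
  exact (h₀ N₀ le_rfl P hP Q hQ x (h ∘ x) _ _ hx (fun i => i.elim0)).symm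

end Pool.Agent.ElemEmb
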