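import Pool.Agent.ElemEmb.Colour
import Pool.Agent.ElemEmb.Analytic

/-! The structures `M x` attached to the points of the Cantor space by an analytic relation. -/

set_option autoImplicit false

open Classical

namespace Pool.Agent.ElemEmb

/-- Presence relation: even labels give the last digit (monotonically), odd labels code strings. -/
def PrOf (T : List ℕ → List Bool → Prop) (s : List ℕ) (ℓ : ℕ) : Prop :=
  (∃ m, ℓ = 2 * m ∧ m ≤ s.headI) ∨ (∃ u : List Bool, ℓ = 2 * Encodable.encode u + 1 ∧ T s u)

theorem PrOf_even {T : List ℕ → List Bool → Prop} {s : List ℕ} {m : ℕ} :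
    PrOf T s (2 * m) ↔ m ≤ s.headI := by
  constructor
  · rintro (⟨m', h1, h2⟩ | ⟨u, h1, _⟩)
    · have : m = m' := by omega
      rw [this]
      exact h2
    · omega
  · intro h
    exact Or.inl ⟨m, rfl, h⟩

theorem PrOf_odd {T : List ℕ → List Bool → Prop} {s : List ℕ} {u : List Bool} :
    PrOf T s (2 * Encodable.encode u + 1) ↔ T s u := by
  constructor
  · rintro (⟨m', h1, _⟩ | ⟨u', h1, h2⟩)
    · omega
    · have h3 : Encodable.encode u = Encodable.encode u' := by omega
      rw [Encodable.encode_injective h3]
      exact h2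
  · intro h
    exact Or.inr ⟨u, rfl, h⟩

/-- The label sets of the point `x`. -/
def TT (g : (ℕ → ℕ) → (ℕ → Bool) × (ℕ → Bool)) (x : ℕ → Bool) (s : List ℕ) (u : List Bool) : Prop :=
  SS g u (pre x s.length) s

/-- The structure of the point `x`. -/
noncomputable def MM (g : (ℕ → ℕ) → (ℕ → Bool) × (ℕ → Bool)) (x : ℕ → Bool) : Code ar :=
  codeOf (colP (PrOf (TT g x)))

variable {g : (ℕ → ℕ) → (ℕ → Bool) × (ℕ → Bool)}

theorem shift_length (ζ : ℕ → ℕ) (s : List ℕ) : (shift ζ s).length = s.length := by
  induction s with
  | nil => rfl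
  | cons k s ih => simp [shift, ih]

theorem EE_of_rel {t : ℕ → ℕ} {x y : ℕ → Bool} (h : g t = (x, y)) : EE ar (MM g x) (MM g y) := by
  refine TreeEmb.EE (full_colP _) (full_colP _)
    (treeEmb_of_mono (ζ := fun n => t n + 1) (fun s ℓ hℓ => ?_))
  rcases hℓ with ⟨m, rfl, hm⟩ | ⟨u, rfl, hu⟩
  · rw [PrOf_even]
    cases s with
    | nil => exact hm
    | cons k s =>
      show m ≤ k + (t s.length + 1)
      have : m ≤ k := hm
      omega
  · rw [PrOf_odd]
    obtain ⟨m, h1, h2⟩ := hu
    have hle : ∀ s : List ℕ, List.Forall₂ (· ≤ ·) s (shift (fun n => t n + 1) s) := by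
      intro s
      induction s with
      | nil => exact List.Forall₂.nil
      | cons k s ih => exact List.Forall₂.cons (Nat.le_add_right _ _) ih
    have hle' : ∀ s : List ℕ, List.Forall₂ (· ≤ ·) (pre t s.length) (shift (fun n => t n + 1) s) := by
      intro s
      induction s with
      | nil => exact List.Forall₂.nil
      | cons k s ih =>
        refine List.Forall₂.cons ?_ ih
        show t s.length ≤ k + (t s.length + 1)
        omega
    have hd : ∀ s : List ℕ, (∀ d ∈ s, m ≤ d) → ∀ d ∈ shift (fun n => t n + 1) s, m + 1 ≤ d := by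
      intro s
      induction s with
      | nil =>
        intro _ d hd
        cases hd
      | cons k s ih =>
        intro h d hd
        rcases List.mem_cons.1 hd with rfl | hd
        · have := h k List.mem_cons_self
          show m + 1 ≤ k + (t s.length + 1)
          omega
        · exact ih (fun d hd => h d (List.mem_cons_of_mem _ hd)) d hd
    refine ⟨m + 1, hd s h1, ?_⟩
    rw [shift_length]
    refine Ch_append (Ch_mono (hle s) h2) (hle' s) ?_
    refine ⟨t, ?_, ?_, ?_⟩
    · rw [pre_length, h]
    · rw [pre_length, h]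
    · rw [pre_length]

theorem base_replicate (n : ℕ) : base (List.replicate n 0) = List.replicate n 0 := by
  simp [base]

theorem isV_replicate (n : ℕ) : isV (List.replicate n 0) := by
  intro k hk
  rw [List.eq_of_mem_replicate hk]

theorem TT_self (x : ℕ → Bool) (n : ℕ) : TT g x (List.replicate n 0) (pre x n) := by
  refine ⟨0, fun d _ => Nat.zero_le d, ?_⟩
  rw [List.length_replicate]
  exact rfl

theorem TT_zero {x : ℕ → Bool} {n : ℕ} {u : List Bool}
    (h : TT g x (List.replicate (n + 1) 0) u) : u = pre x (n + 1) := by
  obtain ⟨m, h1, h2⟩ := h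
  have hm : m = 0 := by
    have := h1 0 (by simp)
    omega
  subst hm
  rw [List.length_replicate] at h2
  exact h2

theorem rel_of_EE (hg : Continuous g) {x y : ℕ → Bool} (h : EE ar (MM g x) (MM g y)) :
    Relation.ReflTransGen (fun a b => ∃ t, g t = (a, b)) x y := by
  obtain ⟨j, hj⟩ := treeMap_of_EE h
  obtain ⟨z, hz⟩ := hj.branch
  have hb : ∀ n, base (j (List.replicate n 0)) = pre z n := by
    intro n
    induction n with
    | zero =>
      show base (j []) = []
      rw [hj.nil]
      rfl
    | succ n ih =>
      rw [hz, ih]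
      rfl
  refine chain_of_SS (z := z) hg fun n => ?_
  have h1 : PrOf (TT g x) (base (List.replicate n 0)) (2 * Encodable.encode (pre x n) + 1) := by
    rw [base_replicate, PrOf_odd]
    exact TT_self x n
  have h2 := hj.transfer (isV_replicate n) h1
  rw [hb, PrOf_odd] at h2
  have h3 : SS g (pre x n) (pre y (pre z n).length) (pre z n) := h2
  rw [pre_length] at h3
  exact h3

/-! ### Rigidity -/

theorem isV_lift (s : List ℕ) : isV (s.map (fun k => 3 * k)) := by
  intro k hk
  obtain ⟨a, _, rfl⟩ := List.mem_map.1 hk
  omega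

theorem base_lift (s : List ℕ) : base (s.map (fun k => 3 * k)) = s := by
  simp [base, List.map_map, Function.comp_def]

theorem rigid_V {T T' : List ℕ → List Bool → Prop} {j j' : List ℕ → List ℕ}
    (h : TreeMap (PrOf T) (PrOf T') j) (h' : TreeMap (PrOf T') (PrOf T) j')
    (hjj : ∀ w, j' (j w) = w) {w : List ℕ} (hw : isV w) : j w = w := by
  induction w with
  | nil => exact h.nil
  | cons k w ih =>
    obtain ⟨hk, hw'⟩ := isV_cons.1 hw
    obtain ⟨k', e⟩ := h.cons k w
    have hV : isV (j (k :: w)) := h.isV hw
    rw [e] at hV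
    have hk' := (isV_cons.1 hV).1
    have h1 : k / 3 ≤ k' / 3 := by
      have := h.transfer hw (ℓ := 2 * (k / 3)) (by
        rw [PrOf_even]
        exact le_rfl)
      rw [e, PrOf_even] at this
      exact this
    have h2 : k' / 3 ≤ k / 3 := by
      have := h'.transfer hV (ℓ := 2 * (k' / 3)) (by
        rw [PrOf_even]
        exact le_rfl)
      rw [← e, hjj, PrOf_even] at this
      exact this
    rw [e, ih hw']
    congr 1
    omega

theorem rigid_T {T T' : List ℕ → List Bool → Prop} {j j' : List ℕ → List ℕ}
    (h : TreeMap (PrOf T) (PrOf T') j) (h' : TreeMap (PrOf T') (PrOf T) j')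
    (hjj : ∀ w, j' (j w) = w) : T = T' := by
  funext s u
  have hw := isV_lift s
  have e := rigid_V h h' hjj hw
  have e' : j' (s.map (fun k => 3 * k)) = s.map (fun k => 3 * k) := by
    have := hjj (s.map (fun k => 3 * k))
    rw [e] at this
    exact this
  apply propext
  constructor
  · intro hT
    have := h.transfer hw (ℓ := 2 * Encodable.encode u + 1) (by
      rw [base_lift, PrOf_odd]
      exact hT)
    rw [e, base_lift, PrOf_odd] at this
    exact this
  · intro hT
    have := h'.transfer hw (ℓ := 2 * Encodable.encode u + 1) (by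
      rw [base_lift, PrOf_odd]
      exact hT)
    rw [e', base_lift, PrOf_odd] at this
    exact this

theorem rigid_id {Pr : List ℕ → ℕ → Prop} {j : List ℕ → List ℕ} (h : TreeMap Pr Pr j)
    (hV : ∀ w, isV w → j w = w) (w : List ℕ) : j w = w := by
  induction w with
  | nil => exact h.nil
  | cons k w ih =>
    by_cases hVk : isV (k :: w)
    · exact hV _ hVk
    · obtain ⟨k', e⟩ := h.cons k w
      have hc := h.cn (k :: w)
      rw [e, ih] at hc
      have hc' : child Pr w k' = child Pr w k := hc
      rw [e, ih]
      congr 1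
      by_cases hw : isV w
      · have hk : k % 3 ≠ 0 := fun hk => hVk (isV_cons.2 ⟨hk, hw⟩)
        have : k % 3 = 1 ∨ k % 3 = 2 := by omega
        rcases this with h0 | h0
        · rw [child_one hw h0] at hc'
          obtain ⟨_, h1, h2, h3⟩ := child_eq_label hc'
          have h4 : (Nat.unpair (k' / 3)).2 = (Nat.unpair (k / 3)).2 := by omega
          have h5 : k' / 3 = k / 3 := by
            rw [← Nat.pair_unpair (k / 3), ← Nat.pair_unpair (k' / 3), h2, h4]
          omega
        · rw [child_two hw h0] at hc'
          have : k' % 3 = 0 ∨ k' % 3 = 1 ∨ k' % 3 = 2 := by omega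
          rcases this with h1 | h1 | h1
          · rw [child_zero hw h1] at hc'
            simp at hc'
          · rw [child_one hw h1] at hc'
            simp at hc'
          · rw [child_two hw h1] at hc'
            have := (Prod.mk.inj hc').1
            omega
      · rw [child_not hw, child_not hw] at hc'
        exact (Prod.mk.inj hc').1

/-- An isomorphism of coded trees is a colour preserving map. -/
theorem treeMap_of_iso {Pr Pr' : List ℕ → ℕ → Prop} (σ : ℕ → ℕ)
    (h : ∀ i v, codeOf (colP Pr) i v = codeOf (colP Pr') i (σ ∘ v)) :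
    TreeMap Pr Pr' (fun w => enc.symm (σ (enc w))) := by
  refine ⟨?_, ?_⟩
  · intro k w
    have h1 := h 0 ![enc w, enc (k :: w)]
    have h2 : isChild (enc.symm (enc (k :: w))) (enc.symm (enc w)) =
      isChild (enc.symm (σ (enc (k :: w)))) (enc.symm (σ (enc w))) := h1
    rw [Equiv.symm_apply_apply, Equiv.symm_apply_apply] at h2
    exact (isChild_iff _ _).1 (h2.symm.trans (by simp [isChild]))
  · intro w
    apply kap_inj
    funext n
    have h1 := h (n + 1) ![enc w]
    have h2 : colP Pr (enc.symm (enc w)) n = colP Pr' (enc.symm (σ (enc w))) n := h1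
    rw [Equiv.symm_apply_apply] at h2
    exact h2.symm

theorem MM_rigid {x y : ℕ → Bool} (σ : Equiv.Perm ℕ)
    (h : ∀ i v, MM g x i v = MM g y i (σ ∘ v)) : x = y ∧ σ = 1 := by
  have h1 := treeMap_of_iso (Pr := PrOf (TT g x)) (Pr' := PrOf (TT g y)) σ h
  have h' : ∀ i v, MM g y i v = MM g x i (σ.symm ∘ v) := by
    intro i v
    rw [h i (σ.symm ∘ v)]
    congr 1
    funext a
    simp
  have h2 := treeMap_of_iso (Pr := PrOf (TT g y)) (Pr' := PrOf (TT g x)) σ.symm h'
  have hinv : ∀ w, enc.symm (σ.symm (enc (enc.symm (σ (enc w))))) = w := by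
    intro w
    simp
  have hT : TT g x = TT g y := rigid_T h1 h2 hinv
  have hxy : x = y := by
    have hn : ∀ n, pre x (n + 1) = pre y (n + 1) := by
      intro n
      have := TT_self (g := g) x (n + 1)
      rw [hT] at this
      exact TT_zero this
    funext n
    exact (List.cons.inj (hn n)).1
  refine ⟨hxy, ?_⟩
  have hV : ∀ w, isV w → enc.symm (σ (enc w)) = w := fun w hw => rigid_V h1 h2 hinv hw
  rw [← hT] at h1
  have hid := rigid_id h1 hV
  ext n
  have := hid (enc.symm n)
  rw [Equiv.apply_symm_apply] at this
  rw [Equiv.Perm.one_apply]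
  exact enc.symm.injective this

/-! ### Measurability -/

theorem measurableSet_pre_eq (n : ℕ) : ∀ u : List Bool,
    MeasurableSet {x : ℕ → Bool | pre x n = u} :=
  fun u => (isOpen_pre_eq n u).measurableSet

theorem measurableSet_pre (n : ℕ) (P : List Bool → Prop) :
    MeasurableSet {x : ℕ → Bool | P (pre x n)} := by
  have : {x : ℕ → Bool | P (pre x n)} = ⋃ (u : List Bool) (_ : P u), {x | pre x n = u} := by
    ext x
    simp
  rw [this]
  exact MeasurableSet.iUnion fun u => MeasurableSet.iUnion fun _ => measurableSet_pre_eq n u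

theorem measurableSet_PrOf (s : List ℕ) (ℓ : ℕ) :
    MeasurableSet {x : ℕ → Bool | PrOf (TT g x) s ℓ} := by
  exact measurableSet_pre s.length (fun v => (∃ m, ℓ = 2 * m ∧ m ≤ s.headI) ∨
    (∃ u : List Bool, ℓ = 2 * Encodable.encode u + 1 ∧ SS g u v s))

theorem measurable_off {α : Type} [MeasurableSpace α] {p : α → Prop} (h : MeasurableSet {x | p x}) :
    Measurable fun x => off (p x) := by
  unfold off
  exact Measurable.ite h measurable_const measurable_const

theorem measurable_MM : Measurable (MM g) := by
  rw [measurable_pi_iff]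
  intro i
  rw [measurable_pi_iff]
  intro v
  cases i with
  | zero => exact measurable_const
  | succ n =>
    show Measurable fun x => kap (cn (PrOf (TT g x)) (enc.symm (v (0 : Fin 1)))) n
    generalize enc.symm (v (0 : Fin 1)) = w
    cases w with
    | nil =>
      show Measurable fun _ => kap (0, true) n
      exact measurable_const
    | cons k w =>
      show Measurable fun x => kap (child (PrOf (TT g x)) w k) n
      by_cases hw : isV w
      · have : k % 3 = 0 ∨ k % 3 = 1 ∨ k % 3 = 2 := by omega
        rcases this with h0 | h0 | h0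
        · simp only [child_zero hw h0]
          exact measurable_const
        · simp only [child_one hw h0]
          have h1 := measurable_off (measurableSet_PrOf (g := g) (base w) (Nat.unpair (k / 3)).1)
          exact (measurable_from_nat (f := fun o : ℕ =>
            kap (Nat.pair (Nat.unpair (k / 3)).1 ((Nat.unpair (k / 3)).2 + o) + 2, true) n)).comp h1
        · simp only [child_two hw h0]
          exact measurable_const
      · simp only [child_not hw]
        exact measurable_const

end Pool.Agent.ElemEmb
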