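import Pool.Agent.ElemEmb.Tree

/-! Colourings of the tree coding a family of finite or infinite sets of labels attached to the
nodes of a copy of the full tree (the lists all whose entries are divisible by three). -/

set_option autoImplicit false

open Classical

namespace Pool.Agent.ElemEmb

/-- The colours: binary expansions of natural numbers and their complements. -/
def kap (c : ℕ × Bool) (n : ℕ) : Bool := xor (Nat.testBit c.1 n) c.2

theorem kap_inj : Function.Injective kap := by
  rintro ⟨c, b⟩ ⟨c', b'⟩ h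
  have hb : b = b' := by
    have h1 := congrFun h (c + c')
    have e1 : Nat.testBit c (c + c') = false := by
      apply Nat.testBit_lt_two_pow
      calc c < 2 ^ c := Nat.lt_two_pow_self
        _ ≤ 2 ^ (c + c') := Nat.pow_le_pow_right (by norm_num) (by omega)
    have e2 : Nat.testBit c' (c + c') = false := by
      apply Nat.testBit_lt_two_pow
      calc c' < 2 ^ c' := Nat.lt_two_pow_self
        _ ≤ 2 ^ (c + c') := Nat.pow_le_pow_right (by norm_num) (by omega)
    simpa [kap, e1, e2] using h1
  subst hb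
  have hc : c = c' := by
    apply Nat.eq_of_testBit_eq
    intro n
    have h1 := congrFun h n
    simpa [kap] using h1
  rw [hc]

theorem tb_infinite (N : ℕ) : ∀ τ : ℕ → Bool, {j : ℕ | ∀ n < N, Nat.testBit j n = τ n}.Infinite := by
  induction N with
  | zero =>
    intro τ
    have : {j : ℕ | ∀ n < 0, Nat.testBit j n = τ n} = Set.univ := by
      ext j
      simp
    rw [this]
    exact Set.infinite_univ
  | succ N ih =>
    intro τ
    have h := ih (fun n => τ (n + 1))
    have hinj : Function.Injective (fun j : ℕ => Nat.bit (τ 0) j) := by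
      intro a b hab
      have h2 : Nat.bit (τ 0) a = Nat.bit (τ 0) b := hab
      rw [Nat.bit_val, Nat.bit_val] at h2
      omega
    refine (h.image hinj.injOn).mono ?_
    rintro _ ⟨j, hj, rfl⟩ n hn
    cases n with
    | zero => exact Nat.testBit_bit_zero _ _
    | succ n =>
      show Nat.testBit (Nat.bit (τ 0) j) (n + 1) = τ (n + 1)
      rw [Nat.testBit_bit_succ]
      exact hj n (by omega)

/-- Nodes of the copy of the full tree. -/
def isV (w : List ℕ) : Prop := ∀ k ∈ w, k % 3 = 0

theorem isV_nil : isV [] := by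
  intro k hk
  cases hk

theorem isV_cons {k : ℕ} {w : List ℕ} : isV (k :: w) ↔ (k % 3 = 0 ∧ isV w) := by
  simp [isV]

/-- The node of the full tree named by a node of the copy. -/
def base (w : List ℕ) : List ℕ := w.map (fun k => k / 3)

theorem base_nil : base [] = [] := rfl

theorem base_cons (k : ℕ) (w : List ℕ) : base (k :: w) = (k / 3) :: base w := rfl

/-- Offset used for coding presence or absence of a label. -/
noncomputable def off (p : Prop) : ℕ := if p then 0 else 1

theorem off_true {p : Prop} (h : p) : off p = 0 := if_pos h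

theorem off_false {p : Prop} (h : ¬ p) : off p = 1 := if_neg h

/-- Colour number of the child `k :: w` of `w`. -/
noncomputable def child (Pr : List ℕ → ℕ → Prop) (w : List ℕ) (k : ℕ) : ℕ × Bool :=
  if isV w then
    if k % 3 = 0 then (1, true)
    else if k % 3 = 1 then
      (Nat.pair (Nat.unpair (k / 3)).1
        ((Nat.unpair (k / 3)).2 + off (Pr (base w) (Nat.unpair (k / 3)).1)) + 2, true)
    else (k / 3, false)
  else (k, false)

/-- Colour number of a node. -/
noncomputable def cn (Pr : List ℕ → ℕ → Prop) : List ℕ → ℕ × Bool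
  | [] => (0, true)
  | k :: w => child Pr w k

/-- The colouring given by a presence relation for labels. -/
noncomputable def colP (Pr : List ℕ → ℕ → Prop) (w : List ℕ) : ℕ → Bool := kap (cn Pr w)

section childLemmas

variable {Pr : List ℕ → ℕ → Prop} {w : List ℕ} {k : ℕ}

theorem child_zero (hw : isV w) (hk : k % 3 = 0) : child Pr w k = (1, true) := by
  rw [child, if_pos hw, if_pos hk]

theorem child_one (hw : isV w) (hk : k % 3 = 1) :
    child Pr w k = (Nat.pair (Nat.unpair (k / 3)).1
        ((Nat.unpair (k / 3)).2 + off (Pr (base w) (Nat.unpair (k / 3)).1)) + 2, true) := by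
  rw [child, if_pos hw, if_neg (by omega), if_pos hk]

theorem child_two (hw : isV w) (hk : k % 3 = 2) : child Pr w k = (k / 3, false) := by
  rw [child, if_pos hw, if_neg (by omega), if_neg (by omega)]

theorem child_not (hw : ¬ isV w) : child Pr w k = (k, false) := by
  rw [child, if_neg hw]

theorem child_ne_root : child Pr w k ≠ (0, true) := by
  unfold child
  split_ifs <;> simp

theorem child_eq_one (h : child Pr w k = (1, true)) : isV w ∧ k % 3 = 0 := by
  unfold child at h
  split_ifs at h with h1 h2 h3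
  · exact ⟨h1, h2⟩
  · simp at h
  · simp at h
  · simp at h

theorem child_eq_label {ℓ i : ℕ} (h : child Pr w k = (Nat.pair ℓ i + 2, true)) :
    isV w ∧ k % 3 = 1 ∧ (Nat.unpair (k / 3)).1 = ℓ ∧
      (Nat.unpair (k / 3)).2 + off (Pr (base w) ℓ) = i := by
  unfold child at h
  split_ifs at h with h1 h2 h3
  · simp at h
  · have h4 : Nat.pair (Nat.unpair (k / 3)).1
        ((Nat.unpair (k / 3)).2 + off (Pr (base w) (Nat.unpair (k / 3)).1)) = Nat.pair ℓ i := by
      have := (Prod.mk.inj h).1
      omega
    obtain ⟨h5, h6⟩ := Nat.pair_eq_pair.1 h4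
    rw [h5] at h6
    exact ⟨h1, h3, h5, h6⟩
  · simp at h
  · simp at h

end childLemmas

theorem full_colP (Pr : List ℕ → ℕ → Prop) : Full (colP Pr) := by
  intro w N τ
  by_cases hw : isV w
  · have hinj : Function.Injective (fun j : ℕ => 3 * j + 2) := by
      intro a b hab
      have : 3 * a + 2 = 3 * b + 2 := hab
      omega
    refine ((tb_infinite N τ).image hinj.injOn).mono ?_
    rintro _ ⟨j, hj, rfl⟩ n hn
    show kap (child Pr w (3 * j + 2)) n = τ n
    rw [child_two hw (by omega), show (3 * j + 2) / 3 = j by omega]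
    simpa [kap] using hj n hn
  · refine (tb_infinite N τ).mono ?_
    intro j hj n hn
    show kap (child Pr w j) n = τ n
    rw [child_not hw]
    simpa [kap] using hj n hn

/-! ### Embeddings from monotone maps -/

section emb

variable (Pr Pr' : List ℕ → ℕ → Prop) (ζ : ℕ → ℕ)

/-- The map of the full tree increasing the digit number `n` by `ζ n`. -/
def shift : List ℕ → List ℕ
  | [] => []
  | k :: s => (k + ζ s.length) :: shift s

/-- Digit map. -/
noncomputable def dig (w : List ℕ) (k : ℕ) : ℕ :=
  if isV w then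
    if k % 3 = 0 then 3 * (k / 3 + ζ w.length)
    else if k % 3 = 1 then
      3 * Nat.pair (Nat.unpair (k / 3)).1
        (if Pr' (shift ζ (base w)) (Nat.unpair (k / 3)).1 ∧ ¬ Pr (base w) (Nat.unpair (k / 3)).1
          then (Nat.unpair (k / 3)).2 + 1 else (Nat.unpair (k / 3)).2) + 1
    else k
  else k

/-- The induced map of the big tree. -/
noncomputable def embMap : List ℕ → List ℕ
  | [] => []
  | k :: w => dig Pr Pr' ζ w k :: embMap w

variable {Pr Pr' ζ}

theorem dig_zero {w : List ℕ} {k : ℕ} (hw : isV w) (hk : k % 3 = 0) :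
    dig Pr Pr' ζ w k = 3 * (k / 3 + ζ w.length) := by
  rw [dig, if_pos hw, if_pos hk]

theorem dig_one {w : List ℕ} {k : ℕ} (hw : isV w) (hk : k % 3 = 1) :
    dig Pr Pr' ζ w k = 3 * Nat.pair (Nat.unpair (k / 3)).1
        (if Pr' (shift ζ (base w)) (Nat.unpair (k / 3)).1 ∧ ¬ Pr (base w) (Nat.unpair (k / 3)).1
          then (Nat.unpair (k / 3)).2 + 1 else (Nat.unpair (k / 3)).2) + 1 := by
  rw [dig, if_pos hw, if_neg (by omega), if_pos hk]

theorem dig_two {w : List ℕ} {k : ℕ} (hw : isV w) (hk : k % 3 = 2) :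
    dig Pr Pr' ζ w k = k := by
  rw [dig, if_pos hw, if_neg (by omega), if_neg (by omega)]

theorem dig_not {w : List ℕ} {k : ℕ} (hw : ¬ isV w) : dig Pr Pr' ζ w k = k := by
  rw [dig, if_neg hw]

theorem dig_mod {w : List ℕ} {k : ℕ} (hw : isV w) : dig Pr Pr' ζ w k % 3 = k % 3 := by
  have : k % 3 = 0 ∨ k % 3 = 1 ∨ k % 3 = 2 := by omega
  rcases this with h | h | h
  · rw [dig_zero hw h]
    omega
  · rw [dig_one hw h]
    omega
  · rw [dig_two hw h]

theorem embMap_isV (w : List ℕ) : isV (embMap Pr Pr' ζ w) ↔ isV w := by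
  induction w with
  | nil => exact Iff.rfl
  | cons k w ih =>
    show isV (dig Pr Pr' ζ w k :: embMap Pr Pr' ζ w) ↔ _
    rw [isV_cons, isV_cons, ih]
    constructor
    · rintro ⟨h1, h2⟩
      rw [dig_mod h2] at h1
      exact ⟨h1, h2⟩
    · rintro ⟨h1, h2⟩
      rw [← dig_mod (Pr := Pr) (Pr' := Pr') (ζ := ζ) h2] at h1
      exact ⟨h1, h2⟩

theorem embMap_length (w : List ℕ) : (embMap Pr Pr' ζ w).length = w.length := by
  induction w with
  | nil => rfl
  | cons k w ih => simp [embMap, ih]

theorem base_length (w : List ℕ) : (base w).length = w.length := by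
  simp [base]

theorem embMap_base {w : List ℕ} (hw : isV w) : base (embMap Pr Pr' ζ w) = shift ζ (base w) := by
  induction w with
  | nil => rfl
  | cons k w ih =>
    obtain ⟨hk, hw'⟩ := isV_cons.1 hw
    show base (dig Pr Pr' ζ w k :: embMap Pr Pr' ζ w) = _
    rw [base_cons, base_cons, ih hw', dig_zero hw' hk]
    show _ = (k / 3 + ζ (base w).length) :: shift ζ (base w)
    rw [base_length]
    congr 1
    omega

theorem dig_inj {w : List ℕ} : Function.Injective (dig Pr Pr' ζ w) := by
  intro k k' h
  by_cases hw : isV w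
  · have hm : k % 3 = k' % 3 := by
      rw [← dig_mod (Pr := Pr) (Pr' := Pr') (ζ := ζ) hw, h, dig_mod hw]
    have : k % 3 = 0 ∨ k % 3 = 1 ∨ k % 3 = 2 := by omega
    rcases this with h0 | h0 | h0
    · rw [dig_zero hw h0, dig_zero hw (hm ▸ h0)] at h
      omega
    · rw [dig_one hw h0, dig_one hw (hm ▸ h0)] at h
      have h1 : Nat.pair (Nat.unpair (k / 3)).1
        (if Pr' (shift ζ (base w)) (Nat.unpair (k / 3)).1 ∧ ¬ Pr (base w) (Nat.unpair (k / 3)).1
          then (Nat.unpair (k / 3)).2 + 1 else (Nat.unpair (k / 3)).2) =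
          Nat.pair (Nat.unpair (k' / 3)).1
        (if Pr' (shift ζ (base w)) (Nat.unpair (k' / 3)).1 ∧ ¬ Pr (base w) (Nat.unpair (k' / 3)).1
          then (Nat.unpair (k' / 3)).2 + 1 else (Nat.unpair (k' / 3)).2) := by omega
      obtain ⟨h2, h3⟩ := Nat.pair_eq_pair.1 h1
      rw [h2] at h3
      have h4 : (Nat.unpair (k / 3)).2 = (Nat.unpair (k' / 3)).2 := by
        split_ifs at h3 <;> omega
      have h5 : k / 3 = k' / 3 := by
        rw [← Nat.pair_unpair (k / 3), ← Nat.pair_unpair (k' / 3), h2, h4]
      omega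
    · rw [dig_two hw h0, dig_two hw (hm ▸ h0)] at h
      exact h
  · rw [dig_not hw, dig_not hw] at h
    exact h

theorem embMap_inj : Function.Injective (embMap Pr Pr' ζ) := by
  intro w
  induction w with
  | nil =>
    intro w' h
    cases w' with
    | nil => rfl
    | cons k' w' => cases h
  | cons k w ih =>
    intro w' h
    cases w' with
    | nil => cases h
    | cons k' w' =>
      obtain ⟨h1, h2⟩ := List.cons.inj h
      have h3 := ih h2
      subst h3
      rw [dig_inj h1]

theorem treeEmb_of_mono (hmono : ∀ s ℓ, Pr s ℓ → Pr' (shift ζ s) ℓ) :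
    TreeEmb (colP Pr) (colP Pr') (embMap Pr Pr' ζ) := by
  refine ⟨rfl, fun k w => ⟨_, rfl⟩, embMap_inj, ?_⟩
  suffices h : ∀ w, cn Pr' (embMap Pr Pr' ζ w) = cn Pr w by
    intro w n
    show kap (cn Pr' (embMap Pr Pr' ζ w)) n = kap (cn Pr w) n
    rw [h]
  intro w
  cases w with
  | nil => rfl
  | cons k w =>
    show child Pr' (embMap Pr Pr' ζ w) (dig Pr Pr' ζ w k) = child Pr w k
    by_cases hw : isV w
    · have hw' : isV (embMap Pr Pr' ζ w) := (embMap_isV w).2 hw
      have : k % 3 = 0 ∨ k % 3 = 1 ∨ k % 3 = 2 := by omega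
      rcases this with h0 | h0 | h0
      · rw [child_zero hw h0, child_zero hw' (by rw [dig_mod hw, h0])]
      · rw [child_one hw h0, child_one hw' (by rw [dig_mod hw, h0]), embMap_base hw,
          dig_one hw h0]
        set ℓ := (Nat.unpair (k / 3)).1 with hℓ
        set i := (Nat.unpair (k / 3)).2 with hi
        rw [show ∀ a : ℕ, (3 * a + 1) / 3 = a by intro a; omega, Nat.unpair_pair]
        have hmo := hmono (base w) ℓ
        by_cases h1 : Pr (base w) ℓ
        · have h2 := hmo h1
          simp [h1, h2, off]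
        · by_cases h2 : Pr' (shift ζ (base w)) ℓ
          · simp [h1, h2, off]
          · simp [h1, h2, off]
      · rw [child_two hw h0, child_two hw' (by rw [dig_mod hw, h0]), dig_two hw h0]
    · have hw' : ¬ isV (embMap Pr Pr' ζ w) := fun h => hw ((embMap_isV w).1 h)
      rw [child_not hw, child_not hw', dig_not hw]

end emb

/-! ### Consequences of the existence of a colour preserving map -/

section rev

variable {Pr Pr' : List ℕ → ℕ → Prop} {j : List ℕ → List ℕ}

/-- A colour preserving map sending children to children. -/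
structure TreeMap (Pr Pr' : List ℕ → ℕ → Prop) (j : List ℕ → List ℕ) : Prop where
  cons : ∀ k w, ∃ k', j (k :: w) = k' :: j w
  cn : ∀ w, cn Pr' (j w) = cn Pr w

theorem treeMap_of_EE (h : EE ar (codeOf (colP Pr)) (codeOf (colP Pr'))) :
    ∃ j, TreeMap Pr Pr' j := by
  obtain ⟨j, h1, h2⟩ := map_of_EE h
  exact ⟨j, h1, fun w => kap_inj (funext fun n => h2 w n)⟩

theorem TreeMap.nil (h : TreeMap Pr Pr' j) : j [] = [] := by
  have h1 := h.cn []
  cases hj : j [] with
  | nil => rfl
  | cons k w =>
    rw [hj] at h1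
    exact absurd h1 child_ne_root

theorem TreeMap.isV (h : TreeMap Pr Pr' j) {w : List ℕ} (hw : isV w) : ElemEmb.isV (j w) := by
  induction w with
  | nil =>
    rw [h.nil]
    exact isV_nil
  | cons k w ih =>
    obtain ⟨hk, hw'⟩ := isV_cons.1 hw
    have h1 := h.cn (k :: w)
    obtain ⟨k', e⟩ := h.cons k w
    rw [e] at h1 ⊢
    have h2 : child Pr' (j w) k' = (1, true) := by
      rw [← child_zero (Pr := Pr) hw' hk]
      exact h1
    exact isV_cons.2 ⟨(child_eq_one h2).2, ih hw'⟩

theorem TreeMap.transfer (h : TreeMap Pr Pr' j) {w : List ℕ} (hw : ElemEmb.isV w) {ℓ : ℕ}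
    (hℓ : Pr (base w) ℓ) : Pr' (base (j w)) ℓ := by
  have h1 := h.cn ((3 * Nat.pair ℓ 0 + 1) :: w)
  obtain ⟨k', e⟩ := h.cons (3 * Nat.pair ℓ 0 + 1) w
  rw [e] at h1
  have h2 : child Pr' (j w) k' = (Nat.pair ℓ 0 + 2, true) := by
    refine h1.trans ?_
    show child Pr w (3 * Nat.pair ℓ 0 + 1) = _
    rw [child_one hw (by omega), show (3 * Nat.pair ℓ 0 + 1) / 3 = Nat.pair ℓ 0 by omega,
      Nat.unpair_pair]
    simp [off_true hℓ]
  obtain ⟨_, _, _, h4⟩ := child_eq_label h2
  by_contra hn
  rw [off_false hn] at h4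
  omega

/-- The digits of the image of the leftmost branch. -/
theorem TreeMap.branch (h : TreeMap Pr Pr' j) :
    ∃ z : ℕ → ℕ, ∀ n, base (j (List.replicate (n + 1) 0)) = z n :: base (j (List.replicate n 0)) := by
  have : ∀ n, ∃ k, base (j (List.replicate (n + 1) 0)) = k :: base (j (List.replicate n 0)) := by
    intro n
    obtain ⟨k', e⟩ := h.cons 0 (List.replicate n 0)
    refine ⟨k' / 3, ?_⟩
    rw [List.replicate_succ, e, base_cons]
  choose z hz using this
  exact ⟨z, hz⟩

end rev

end Pool.Agent.ElemEmb
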