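import Pool.Agent.ElemEmb.Coding

/-! Final assembly: Borel bireducibility of an arbitrary analytic quasi-order with elementary
embeddability on a Borel isomorphism invariant class of countable structures. -/

set_option autoImplicit false

open Classical

namespace Pool.Agent.ElemEmb

theorem EE_trans {a : ℕ → ℕ} {u v w : Code a} (h : EE a u v) (h' : EE a v w) : EE a u w := by
  obtain ⟨h⟩ := h
  obtain ⟨h'⟩ := h'
  exact ⟨@FirstOrder.Language.ElementaryEmbedding.comp (langOf a) ℕ ℕ ℕ (strOf a u) (strOf a v)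
    (strOf a w) h' h⟩

theorem EE_iso {a : ℕ → ℕ} {u v : Code a} (σ : Equiv.Perm ℕ) (h : ∀ i x, u i x = v i (σ ∘ x)) :
    EE a u v := by
  refine EE_of_BF σ fun N n x =>
    ⟨{{p : ℕ × ℕ | p.2 = σ p.1}}, ⟨?_, ?_, ?_, ?_⟩, {p : ℕ × ℕ | p.2 = σ p.1}, rfl, fun i => rfl⟩
  · rintro Q rfl i _ x y hxy
    rw [h i x]
    congr 1
    funext j
    exact (hxy j).symm
  · rintro Q rfl p hp q hq
    have hp' : p.2 = σ p.1 := hp
    have hq' : q.2 = σ q.1 := hq
    rw [hp', hq', σ.injective.eq_iff]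
  · rintro Q rfl x
    exact ⟨_, rfl, subset_rfl, σ x, rfl⟩
  · rintro Q rfl y
    exact ⟨_, rfl, subset_rfl, σ.symm y, (σ.apply_symm_apply y).symm⟩

/-- Permutations of the natural numbers as pairs of mutually inverse functions. -/
def PP : Set ((ℕ → ℕ) × (ℕ → ℕ)) := {p | ∀ n, p.1 (p.2 n) = n ∧ p.2 (p.1 n) = n}

theorem measurable_eval_nat : Measurable fun q : (ℕ → ℕ) × ℕ => q.1 q.2 :=
  measurable_from_prod_countable_left fun n => measurable_pi_apply n

theorem measurableSet_PP : MeasurableSet PP := by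
  have : PP = ⋂ n : ℕ, ({p : (ℕ → ℕ) × (ℕ → ℕ) | p.1 (p.2 n) = n} ∩
      {p : (ℕ → ℕ) × (ℕ → ℕ) | p.2 (p.1 n) = n}) := by
    ext p
    simp [PP]
  rw [this]
  refine MeasurableSet.iInter fun n => MeasurableSet.inter ?_ ?_
  · have h : Measurable fun p : (ℕ → ℕ) × (ℕ → ℕ) => p.1 (p.2 n) :=
      measurable_eval_nat.comp (measurable_fst.prodMk ((measurable_pi_apply n).comp measurable_snd))
    exact h (measurableSet_singleton n)
  · have h : Measurable fun p : (ℕ → ℕ) × (ℕ → ℕ) => p.2 (p.1 n) :=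
      measurable_eval_nat.comp (measurable_snd.prodMk ((measurable_pi_apply n).comp measurable_fst))
    exact h (measurableSet_singleton n)

/-- The permutation given by a point of `PP`. -/
def toPerm (p : PP) : Equiv.Perm ℕ where
  toFun := p.1.1
  invFun := p.1.2
  left_inv n := (p.2 n).2
  right_inv n := (p.2 n).1

/-- The point of `PP` given by a permutation. -/
def ofPerm (σ : Equiv.Perm ℕ) : PP := ⟨(σ, σ.symm), fun n => ⟨σ.apply_symm_apply n, σ.symm_apply_apply n⟩⟩

theorem toPerm_inj {p q : PP} (h : toPerm p = toPerm q) : p = q := by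
  apply Subtype.ext
  apply Prod.ext
  · exact congrArg (fun σ : Equiv.Perm ℕ => (σ : ℕ → ℕ)) h
  · exact congrArg (fun σ : Equiv.Perm ℕ => (σ.symm : ℕ → ℕ)) h

theorem main (X : Type) [TopologicalSpace X] [PolishSpace X] [MeasurableSpace X] [BorelSpace X]
    (R : X → X → Prop) (hrefl : ∀ x, R x x) (htrans : ∀ x y z, R x y → R y z → R x z)
    (han : MeasureTheory.AnalyticSet {p : X × X | R p.1 p.2}) :
    ∃ B : Set (Code ar), MeasurableSet B ∧
      (∀ (σ : Equiv.Perm ℕ) (u : Code ar), u ∈ B ↔ (fun i v => u i (σ ∘ v)) ∈ B) ∧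
      (∃ f : X → Code ar, Measurable f ∧ (∀ x, f x ∈ B) ∧ ∀ x y, R x y ↔ EE ar (f x) (f y)) ∧
      (∃ g : B → X, Measurable g ∧ ∀ u v : B, EE ar u.1 v.1 ↔ R (g u) (g v)) := by
  -- embed `X` into the Cantor space
  obtain ⟨ι, hι, ιinj⟩ := MeasurableSpace.measurable_injection_nat_bool_of_countablySeparated X
  -- the image of `R` is parametrised by a continuous function, if `X` is nonempty
  obtain ⟨g, hg, hgR⟩ : ∃ g : (ℕ → ℕ) → (ℕ → Bool) × (ℕ → Bool), Continuous g ∧
      ((∃ _ : X, True) → ∀ a b, (∃ t, g t = (a, b)) ↔ ∃ x y, ι x = a ∧ ι y = b ∧ R x y) := by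
    by_cases hX : ∃ _ : X, True
    · obtain ⟨x₀, _⟩ := hX
      rw [MeasureTheory.AnalyticSet] at han
      rcases han with h | ⟨φ, hφ, hφR⟩
      · have : (x₀, x₀) ∈ ({p : X × X | R p.1 p.2} : Set (X × X)) := hrefl x₀
        rw [h] at this
        exact this.elim
      · have hm : Measurable fun t => (ι (φ t).1, ι (φ t).2) :=
          (hι.comp (measurable_fst.comp hφ.measurable)).prodMk
            (hι.comp (measurable_snd.comp hφ.measurable))
        have h2 : MeasureTheory.AnalyticSet ((fun t => (ι (φ t).1, ι (φ t).2)) '' Set.univ) :=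
          MeasurableSet.univ.analyticSet_image hm
        rw [MeasureTheory.AnalyticSet] at h2
        rcases h2 with h2 | ⟨g, hg, hgr⟩
        · exfalso
          rw [Set.image_univ] at h2
          exact (Set.range_nonempty (fun t => (ι (φ t).1, ι (φ t).2))).ne_empty h2
        · refine ⟨g, hg, fun _ a b => ?_⟩
          have h3 : (∃ t, g t = (a, b)) ↔ (a, b) ∈ Set.range g := Iff.rfl
          rw [h3, hgr, Set.image_univ]
          constructor
          · rintro ⟨t, ht⟩
            have h4 : φ t ∈ ({p : X × X | R p.1 p.2} : Set (X × X)) := by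
              rw [← hφR]
              exact ⟨t, rfl⟩
            exact ⟨(φ t).1, (φ t).2, (Prod.mk.inj ht).1, (Prod.mk.inj ht).2, h4⟩
          · rintro ⟨x, y, rfl, rfl, hxy⟩
            have h4 : (x, y) ∈ Set.range φ := by
              rw [hφR]
              exact hxy
            obtain ⟨t, ht⟩ := h4
            refine ⟨t, ?_⟩
            show (ι (φ t).1, ι (φ t).2) = (ι x, ι y)
            rw [ht]
    · exact ⟨fun _ => (fun _ => false, fun _ => false), continuous_const, fun h => absurd h hX⟩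
  -- reduction
  have hred : ∀ x y, R x y ↔ EE ar (MM g (ι x)) (MM g (ι y)) := by
    intro x y
    have hgR' := hgR ⟨x, trivial⟩
    constructor
    · intro h
      obtain ⟨t, ht⟩ := (hgR' (ι x) (ι y)).2 ⟨x, y, rfl, rfl, h⟩
      exact EE_of_rel ht
    · intro h
      have h1 := rel_of_EE hg h
      have h2 : ∀ b, Relation.ReflTransGen (fun a b => ∃ t, g t = (a, b)) (ι x) b →
          ∃ y, b = ι y ∧ R x y := by
        intro b hb
        induction hb with
        | refl => exact ⟨x, rfl, hrefl x⟩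
        | tail _ h4 ih =>
          obtain ⟨y', e, hy'⟩ := ih
          obtain ⟨x₁, y₁, e₁, e₂, h5⟩ := (hgR' _ _).1 h4
          rw [e] at e₁
          rw [ιinj e₁] at h5
          exact ⟨y₁, e₂.symm, htrans _ _ _ hy' h5⟩
      obtain ⟨y', e, hy'⟩ := h2 _ h1
      rw [ιinj e]
      exact hy'
  -- the Borel class
  have : StandardBorelSpace PP := measurableSet_PP.standardBorel
  let Φ : X × PP → Code ar := fun q i v => MM g (ι q.1) i (q.2.1.1 ∘ v)
  have hΦm : Measurable Φ := by
    rw [measurable_pi_iff]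
    intro i
    rw [measurable_pi_iff]
    intro v
    have h1 : Measurable fun q : ((Fin (ar i) → ℕ) → Bool) × (Fin (ar i) → ℕ) => q.1 q.2 :=
      measurable_from_prod_countable_left fun n => measurable_pi_apply n
    have h2 : Measurable fun q : X × PP => MM g (ι q.1) i :=
      (measurable_pi_apply i).comp (measurable_MM.comp (hι.comp measurable_fst))
    have h3 : Measurable fun q : X × PP => q.2.1.1 ∘ v := by
      rw [measurable_pi_iff]
      intro a
      exact (measurable_pi_apply (v a)).comp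
        (measurable_fst.comp (measurable_subtype_coe.comp measurable_snd))
    exact h1.comp (h2.prodMk h3)
  have hΦi : Function.Injective Φ := by
    rintro ⟨x, p⟩ ⟨y, q⟩ h
    have h1 : ∀ i v, MM g (ι x) i (toPerm p ∘ v) = MM g (ι y) i (toPerm q ∘ v) :=
      fun i v => congrFun (congrFun h i) v
    have h2 := MM_rigid (g := g) (x := ι x) (y := ι y) (toPerm q * (toPerm p)⁻¹) (by
      intro i v
      have h3 := h1 i (((toPerm p)⁻¹ : Equiv.Perm ℕ) ∘ v)
      have e1 : toPerm p ∘ ((toPerm p)⁻¹ : Equiv.Perm ℕ) ∘ v = v := by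
        funext a
        simp
      rw [e1] at h3
      rw [h3]
      rfl)
    obtain ⟨h3, h4⟩ := h2
    have h5 : toPerm q = toPerm p := mul_inv_eq_one.1 h4
    rw [ιinj h3, toPerm_inj h5]
  have hΦ : MeasurableEmbedding Φ := hΦm.measurableEmbedding hΦi
  have hEE : ∀ q : X × PP, EE ar (Φ q) (MM g (ι q.1)) ∧ EE ar (MM g (ι q.1)) (Φ q) := by
    intro q
    refine ⟨EE_iso (toPerm q.2) fun i x => rfl, EE_iso (toPerm q.2).symm fun i x => ?_⟩
    show MM g (ι q.1) i x = MM g (ι q.1) i (toPerm q.2 ∘ ((toPerm q.2).symm ∘ x))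
    congr 1
    funext a
    simp
  refine ⟨Set.range Φ, hΦ.measurableSet_range, ?_, ?_, ?_⟩
  · have key : ∀ (σ : Equiv.Perm ℕ) (u : Code ar), u ∈ Set.range Φ →
        (fun i v => u i (σ ∘ v)) ∈ Set.range Φ := by
      rintro σ u ⟨⟨x, p⟩, rfl⟩
      exact ⟨(x, ofPerm (toPerm p * σ)), rfl⟩
    intro σ u
    refine ⟨key σ u, fun h => ?_⟩
    have h2 := key σ⁻¹ _ h
    have e : (fun i v => (fun i v => u i (σ ∘ v)) i ((σ⁻¹ : Equiv.Perm ℕ) ∘ v) : Code ar) = u := by
      funext i v
      show u i (σ ∘ ((σ⁻¹ : Equiv.Perm ℕ) ∘ v)) = u i v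
      congr 1
      funext a
      simp
    rw [e] at h2
    exact h2
  · refine ⟨fun x => MM g (ι x), measurable_MM.comp hι, fun x => ⟨(x, ofPerm 1), ?_⟩, hred⟩
    funext i v
    rfl
  · refine ⟨fun u => (hΦ.equivRange.symm u).1, measurable_fst.comp hΦ.equivRange.symm.measurable,
      ?_⟩
    rintro ⟨_, q, rfl⟩ ⟨_, q', rfl⟩
    show EE ar (Φ q) (Φ q') ↔
      R (hΦ.equivRange.symm ⟨Φ q, _⟩).1 (hΦ.equivRange.symm ⟨Φ q', _⟩).1
    rw [hΦ.equivRange_symm_apply_mk, hΦ.equivRange_symm_apply_mk, hred]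
    exact ⟨fun h => EE_trans (hEE q).2 (EE_trans h (hEE q').1),
      fun h => EE_trans (hEE q).1 (EE_trans h (hEE q').2)⟩

end Pool.Agent.ElemEmb
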