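import Pool.Agent.ElemEmb.Basic

/-! Coloured trees: the tree of finite lists of natural numbers (the children of `w` are the lists
`k :: w`), every node carrying a colour in the Cantor space, visible through countably many unary
predicates.  If below every node every basic clopen set of colours is realised infinitely often,
then every colour preserving tree embedding is elementary. -/

set_option autoImplicit false

namespace Pool.Agent.ElemEmb

/-- Arities: one binary relation and countably many unary predicates. -/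
def ar : ℕ → ℕ
  | 0 => 2
  | _ + 1 => 1

/-- `isChild w' w` says that `w'` is a child of `w`. -/
def isChild : List ℕ → List ℕ → Bool
  | [], _ => false
  | _ :: t, w => decide (t = w)

theorem isChild_iff (w' w : List ℕ) : isChild w' w = true ↔ ∃ k, w' = k :: w := by
  cases w' with
  | nil => simp [isChild]
  | cons k t => simp [isChild]

/-- A fixed bijection between nodes and natural numbers. -/
def enc : List ℕ ≃ ℕ := Denumerable.eqv (List ℕ)

/-- The structure on the natural numbers given by a colouring of the tree. -/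
def codeOf (col : List ℕ → ℕ → Bool) : Code ar
  | 0 => fun v => isChild (enc.symm (v (1 : Fin 2))) (enc.symm (v (0 : Fin 2)))
  | n + 1 => fun v => col (enc.symm (v (0 : Fin 1))) n

/-- Below every node, every basic clopen set of colours is realised infinitely often. -/
def Full (col : List ℕ → ℕ → Bool) : Prop :=
  ∀ (w : List ℕ) (N : ℕ) (τ : ℕ → Bool), {k | ∀ n < N, col (k :: w) n = τ n}.Infinite

/-- Finite partial isomorphisms for the first `N` colour predicates. -/
structure Good (col col' : List ℕ → ℕ → Bool) (N : ℕ) (Q : Finset (List ℕ × List ℕ)) : Prop where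
  nil : ([], []) ∈ Q
  down : ∀ k w v, (k :: w, v) ∈ Q → ∃ k' v', v = k' :: v' ∧ (w, v') ∈ Q
  up : ∀ w k' v, (w, k' :: v) ∈ Q → ∃ k w', w = k :: w' ∧ (w', v) ∈ Q
  inj : ∀ p ∈ Q, ∀ q ∈ Q, (p.1 = q.1 ↔ p.2 = q.2)
  colr : ∀ p ∈ Q, ∀ n < N, col p.1 n = col' p.2 n

theorem Good.swap {col col' : List ℕ → ℕ → Bool} {N : ℕ} {Q : Finset (List ℕ × List ℕ)}
    (h : Good col col' N Q) : Good col' col N (Q.image Prod.swap) := by
  have hm : ∀ w v, (w, v) ∈ Q.image Prod.swap ↔ (v, w) ∈ Q := by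
    intro w v
    simp only [Finset.mem_image, Prod.exists, Prod.swap_prod_mk, Prod.mk.injEq]
    constructor
    · rintro ⟨a, b, h, rfl, rfl⟩
      exact h
    · intro h
      exact ⟨v, w, h, rfl, rfl⟩
  refine ⟨(hm _ _).2 h.nil, ?_, ?_, ?_, ?_⟩
  · intro k w v hv
    obtain ⟨k', w', e, hw⟩ := h.up v k w ((hm _ _).1 hv)
    exact ⟨k', w', e, (hm _ _).2 hw⟩
  · intro w k' v hv
    obtain ⟨k, w', e, hw⟩ := h.down k' v w ((hm _ _).1 hv)
    exact ⟨k, w', e, (hm _ _).2 hw⟩
  · rintro ⟨a, b⟩ hp ⟨c, d⟩ hq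
    exact (h.inj _ ((hm _ _).1 hp) _ ((hm _ _).1 hq)).symm
  · rintro ⟨a, b⟩ hp n hn
    exact (h.colr _ ((hm _ _).1 hp) n hn).symm

theorem Good.forth {col col' : List ℕ → ℕ → Bool} {N : ℕ} (hF : Full col') (w : List ℕ) :
    ∀ {Q : Finset (List ℕ × List ℕ)}, Good col col' N Q →
      ∃ Q', Good col col' N Q' ∧ Q ⊆ Q' ∧ ∃ v, (w, v) ∈ Q' := by
  induction w with
  | nil => exact fun {Q} h => ⟨Q, h, subset_rfl, [], h.nil⟩
  | cons k w ih =>
    intro Q h
    obtain ⟨Q₁, h₁, hsub, v, hv⟩ := ih h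
    by_cases hk : ∃ v₂, (k :: w, v₂) ∈ Q₁
    · exact ⟨Q₁, h₁, hsub, hk⟩
    · have hfin : {k' : ℕ | (k' :: v) ∈ Q₁.image Prod.snd}.Finite := by
        refine Set.Finite.preimage (f := fun k' : ℕ => k' :: v) ?_ (Finset.finite_toSet _)
        intro a _ b _ hab
        exact (List.cons.inj hab).1
      obtain ⟨k', hk', hnot⟩ :=
        ((hF v N (fun n => col (k :: w) n)).sdiff hfin).nonempty
      have hnew : ∀ q ∈ Q₁, q.2 ≠ k' :: v := by
        intro q hq e
        exact hnot (by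
          show (k' :: v) ∈ Q₁.image Prod.snd
          exact Finset.mem_image.2 ⟨q, hq, e⟩)
      have hnew' : ∀ q ∈ Q₁, q.1 ≠ k :: w := by
        intro q hq e
        exact hk ⟨q.2, by rw [← e]; exact hq⟩
      refine ⟨insert (k :: w, k' :: v) Q₁, ⟨?_, ?_, ?_, ?_, ?_⟩,
        hsub.trans (Finset.subset_insert _ _), k' :: v, Finset.mem_insert_self _ _⟩
      · exact Finset.mem_insert_of_mem h₁.nil
      · intro a w₁ v₁ hm
        rcases Finset.mem_insert.1 hm with e | hm
        · obtain ⟨e₁, e₂⟩ := Prod.mk.inj e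
          obtain ⟨_, e₄⟩ := List.cons.inj e₁
          exact ⟨k', v, e₂, by rw [e₄]; exact Finset.mem_insert_of_mem hv⟩
        · obtain ⟨k₂, v₂, e, hm'⟩ := h₁.down a w₁ v₁ hm
          exact ⟨k₂, v₂, e, Finset.mem_insert_of_mem hm'⟩
      · intro w₁ a v₁ hm
        rcases Finset.mem_insert.1 hm with e | hm
        · obtain ⟨e₁, e₂⟩ := Prod.mk.inj e
          obtain ⟨_, e₄⟩ := List.cons.inj e₂
          exact ⟨k, w, e₁, by rw [e₄]; exact Finset.mem_insert_of_mem hv⟩
        · obtain ⟨k₂, v₂, e, hm'⟩ := h₁.up w₁ a v₁ hm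
          exact ⟨k₂, v₂, e, Finset.mem_insert_of_mem hm'⟩
      · intro p hp q hq
        rcases Finset.mem_insert.1 hp with rfl | hp <;> rcases Finset.mem_insert.1 hq with rfl | hq
        · simp
        · constructor
          · intro e
            exact absurd e.symm (hnew' q hq)
          · intro e
            exact absurd e.symm (hnew q hq)
        · constructor
          · intro e
            exact absurd e (hnew' p hp)
          · intro e
            exact absurd e (hnew p hp)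
        · exact h₁.inj p hp q hq
      · intro p hp n hn
        rcases Finset.mem_insert.1 hp with rfl | hp
        · exact (hk' n hn).symm
        · exact h₁.colr p hp n hn

theorem Good.child {col col' : List ℕ → ℕ → Bool} {N : ℕ} {Q : Finset (List ℕ × List ℕ)}
    (hQ : Good col col' N Q) {w v w' v' : List ℕ} (h0 : (w, v) ∈ Q) (h1 : (w', v') ∈ Q) :
    isChild w' w = isChild v' v := by
  rw [Bool.eq_iff_iff, isChild_iff, isChild_iff]
  constructor
  · rintro ⟨k, rfl⟩
    obtain ⟨k', u, rfl, hm⟩ := hQ.down _ _ _ h1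
    exact ⟨k', by rw [show u = v from (hQ.inj _ hm _ h0).1 rfl]⟩
  · rintro ⟨k, rfl⟩
    obtain ⟨k', u, rfl, hm⟩ := hQ.up _ _ _ h1
    exact ⟨k', by rw [show u = w from (hQ.inj _ hm _ h0).2 rfl]⟩

/-- The set of pairs of numbers coded by a finite set of pairs of nodes. -/
def encSet (Q : Finset (List ℕ × List ℕ)) : Set (ℕ × ℕ) :=
  {p | (enc.symm p.1, enc.symm p.2) ∈ Q}

theorem BF_good {col col' : List ℕ → ℕ → Bool} (hF : Full col) (hF' : Full col') (N : ℕ) :
    BF ar (codeOf col) (codeOf col') N {A | ∃ Q, Good col col' N Q ∧ A = encSet Q} := by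
  refine ⟨?_, ?_, ?_, ?_⟩
  · rintro _ ⟨Q, hQ, rfl⟩ i hi x y hxy
    cases i with
    | zero =>
      show isChild (enc.symm (x (1 : Fin 2))) (enc.symm (x (0 : Fin 2))) =
        isChild (enc.symm (y (1 : Fin 2))) (enc.symm (y (0 : Fin 2)))
      have h0 : (enc.symm (x (0 : Fin 2)), enc.symm (y (0 : Fin 2))) ∈ Q := hxy (0 : Fin 2)
      have h1 : (enc.symm (x (1 : Fin 2)), enc.symm (y (1 : Fin 2))) ∈ Q := hxy (1 : Fin 2)
      exact hQ.child h0 h1
    | succ n =>
      exact hQ.colr _ (hxy (0 : Fin 1)) n (by omega)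
  · rintro _ ⟨Q, hQ, rfl⟩ p hp q hq
    have := hQ.inj _ hp _ hq
    simpa using this
  · rintro _ ⟨Q, hQ, rfl⟩ x
    obtain ⟨Q', hQ', hsub, v, hv⟩ := hQ.forth hF' (enc.symm x)
    refine ⟨encSet Q', ⟨Q', hQ', rfl⟩, fun p hp => hsub hp, enc v, ?_⟩
    simpa [encSet] using hv
  · rintro _ ⟨Q, hQ, rfl⟩ y
    obtain ⟨Q', hQ', hsub, v, hv⟩ := hQ.swap.forth hF (enc.symm y)
    refine ⟨encSet (Q'.image Prod.swap), ⟨_, hQ'.swap, rfl⟩, ?_, enc v, ?_⟩
    · intro p hp
      show (enc.symm p.1, enc.symm p.2) ∈ Q'.image Prod.swap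
      refine Finset.mem_image.2 ⟨(enc.symm p.2, enc.symm p.1), hsub ?_, rfl⟩
      exact Finset.mem_image.2 ⟨(enc.symm p.1, enc.symm p.2), hp, rfl⟩
    · show (enc.symm (enc v), enc.symm y) ∈ Q'.image Prod.swap
      refine Finset.mem_image.2 ⟨(enc.symm y, v), hv, ?_⟩
      simp

/-- A colour preserving embedding of the tree. -/
structure TreeEmb (col col' : List ℕ → ℕ → Bool) (j : List ℕ → List ℕ) : Prop where
  nil : j [] = []
  cons : ∀ k w, ∃ k', j (k :: w) = k' :: j w
  inj : Function.Injective j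
  colr : ∀ w n, col' (j w) n = col w n

theorem TreeEmb.EE {col col' : List ℕ → ℕ → Bool} (hF : Full col) (hF' : Full col')
    {j : List ℕ → List ℕ} (hj : TreeEmb col col' j) : EE ar (codeOf col) (codeOf col') := by
  refine EE_of_BF (fun n => enc (j (enc.symm n))) ?_
  intro N n x
  refine ⟨_, BF_good hF hF' N, ?_⟩
  -- the suffix closed finite set generated by `x`
  let A : Finset (List ℕ) :=
    insert [] (Finset.univ.biUnion fun i : Fin n => (enc.symm (x i)).tails.toFinset)
  have hA : ∀ w, w ∈ A ↔ (w = [] ∨ ∃ i, w <:+ enc.symm (x i)) := by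
    intro w
    simp [A]
  have hcl : ∀ k w, (k :: w) ∈ A → w ∈ A := by
    intro k w h
    rcases (hA _).1 h with h | ⟨i, h⟩
    · cases h
    · exact (hA _).2 (Or.inr ⟨i, (List.suffix_cons k w).trans h⟩)
  let Q : Finset (List ℕ × List ℕ) := A.image fun w => (w, j w)
  have hQ : ∀ w v, (w, v) ∈ Q ↔ (w ∈ A ∧ v = j w) := by
    intro w v
    simp only [Q, Finset.mem_image, Prod.mk.injEq]
    constructor
    · rintro ⟨a, ha, rfl, rfl⟩
      exact ⟨ha, rfl⟩
    · rintro ⟨ha, rfl⟩
      exact ⟨w, ha, rfl, rfl⟩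
  refine ⟨encSet Q, ⟨Q, ⟨?_, ?_, ?_, ?_, ?_⟩, rfl⟩, ?_⟩
  · exact (hQ _ _).2 ⟨(hA _).2 (Or.inl rfl), hj.nil.symm⟩
  · intro k w v h
    obtain ⟨hw, rfl⟩ := (hQ _ _).1 h
    obtain ⟨k', e⟩ := hj.cons k w
    exact ⟨k', j w, e, (hQ _ _).2 ⟨hcl _ _ hw, rfl⟩⟩
  · intro w k' v h
    obtain ⟨hw, e⟩ := (hQ _ _).1 h
    cases w with
    | nil =>
      rw [hj.nil] at e
      cases e
    | cons k w =>
      obtain ⟨k₂, e₂⟩ := hj.cons k w
      rw [e₂] at e
      obtain ⟨_, e₃⟩ := List.cons.inj e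
      exact ⟨k, w, rfl, (hQ _ _).2 ⟨hcl _ _ hw, e₃⟩⟩
  · rintro ⟨a, b⟩ hp ⟨c, d⟩ hq
    obtain ⟨_, rfl⟩ := (hQ _ _).1 hp
    obtain ⟨_, rfl⟩ := (hQ _ _).1 hq
    exact (hj.inj.eq_iff).symm
  · rintro ⟨a, b⟩ hp m _
    obtain ⟨_, rfl⟩ := (hQ _ _).1 hp
    exact (hj.colr a m).symm
  · intro i
    show (enc.symm (x i), enc.symm (enc (j (enc.symm (x i))))) ∈ Q
    rw [Equiv.symm_apply_apply]
    exact (hQ _ _).2 ⟨(hA _).2 (Or.inr ⟨i, List.suffix_rfl⟩), rfl⟩

/-- Properties of a map between coloured trees induced by an elementary embedding. -/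
theorem map_of_EE {col col' : List ℕ → ℕ → Bool} (h : EE ar (codeOf col) (codeOf col')) :
    ∃ j : List ℕ → List ℕ, (∀ k w, ∃ k', j (k :: w) = k' :: j w) ∧
      (∀ w n, col' (j w) n = col w n) := by
  obtain ⟨h⟩ := h
  refine ⟨fun w => enc.symm (@FirstOrder.Language.ElementaryEmbedding.toFun (langOf ar) ℕ ℕ
    (strOf ar (codeOf col)) (strOf ar (codeOf col')) h (enc w)), ?_, ?_⟩
  · intro k w
    have := @FirstOrder.Language.ElementaryEmbedding.map_rel (langOf ar) ℕ ℕ
      (strOf ar (codeOf col)) (strOf ar (codeOf col')) h 2 ⟨0, rfl⟩ ![enc w, enc (k :: w)]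
    have h2 := this.2 (by
      show isChild (enc.symm (enc (k :: w))) (enc.symm (enc w)) = true
      rw [Equiv.symm_apply_apply, Equiv.symm_apply_apply]
      simp [isChild])
    exact (isChild_iff _ _).1 h2
  · intro w n
    have := @FirstOrder.Language.ElementaryEmbedding.map_rel (langOf ar) ℕ ℕ
      (strOf ar (codeOf col)) (strOf ar (codeOf col')) h 1 ⟨n + 1, rfl⟩ ![enc w]
    have h2 : (col' (enc.symm (@FirstOrder.Language.ElementaryEmbedding.toFun (langOf ar) ℕ ℕ
      (strOf ar (codeOf col)) (strOf ar (codeOf col')) h (enc w))) n = true) ↔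
      (col (enc.symm (enc w)) n = true) := this
    rw [Equiv.symm_apply_apply] at h2
    exact Bool.eq_iff_iff.2 h2

end Pool.Agent.ElemEmb
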